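import Pool.Agent.H41.Kagan

set_option autoImplicit false

namespace Pool.Agent.Results.MP_d643ae_pr.NotNormal

open MeasureTheory Real Pool.Agent.H41.Kagan

/-- For every `n` and `c` there are continuous positive densities `f, g` satisfying the hyperplane
condition with `f` not (a.e.) a normal density. -/
theorem result (n : ℕ) (c : ℝ) : ∃ f g : ℝ → ℝ,
    Continuous f ∧ (∀ x, 0 < f x) ∧ Integrable f ∧ ∫ x, f x = 1 ∧
    Continuous g ∧ (∀ x, 0 < g x) ∧ Integrable g ∧ ∫ x, g x = 1 ∧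
    (∀ x : Fin n → ℝ, ∑ j, x j = 0 →
      Integrable (fun u => (u - c) * g u * ∏ j, f (x j - u)) ∧
      ∫ u, (u - c) * g u * ∏ j, f (x j - u) = 0) ∧
    ¬ ∃ a σ : ℝ, 0 < σ ∧ ∀ᵐ x : ℝ,
      f x = (√(2 * π * σ ^ 2))⁻¹ * exp (-(x - a) ^ 2 / (2 * σ ^ 2)) := by
  have hγ : 0 < ((n : ℝ) + 2) * π := by positivity
  have gp : ∀ u, 0 < g0 ((n + 2) * π) u := fun u => mul_pos (exp_pos _) (sg_pos hγ u)
  have gc : Continuous (g0 ((n + 2) * π)) := by
    have := sg_cont ((n + 2) * π); unfold g0; fun_prop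
  have hf : 0 < ∫ x, f0 x := integral_pos_of_integrable_nonneg_nonzero f0_cont f0_int
    (fun x => (f0_pos x).le) (f0_pos 0).ne'
  have hg : 0 < ∫ x, g0 ((n + 2) * π) x := integral_pos_of_integrable_nonneg_nonzero gc (g0_int hγ)
    (fun x => (gp x).le) (gp 0).ne'
  set Z := ∫ x, f0 x with hZ
  set Y := ∫ x, g0 ((n + 2) * π) x with hY
  have fc := f0_cont
  refine ⟨fun x => f0 (x + c) / Z, fun u => g0 ((n + 2) * π) (u - c) / Y, by fun_prop,
    fun x => div_pos (f0_pos _) hf, (f0_int.comp_add_right c).div_const _, ?_, by fun_prop,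
    fun x => div_pos (gp _) hg, ((g0_int hγ).comp_sub_right c).div_const _, ?_, fun x hx => ?_, ?_⟩
  · rw [integral_div, integral_add_right_eq_self f0, div_self hf.ne']
  · rw [integral_div, integral_sub_right_eq_self (g0 _), div_self hg.ne']
  · obtain ⟨h1, h2⟩ := key n x hx
    have e : (fun u => (u - c) * (g0 ((n + 2) * π) (u - c) / Y) * ∏ j, f0 (x j - u + c) / Z) =
        fun u => ((u - c) * g0 ((n + 2) * π) (u - c) * ∏ j, f0 (x j - (u - c))) / (Y * Z ^ n) := by
      funext u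
      simp only [Finset.prod_div_distrib, Finset.prod_const, Finset.card_univ, Fintype.card_fin,
        sub_add]
      field_simp
    rw [e]
    refine ⟨(h1.comp_sub_right c).div_const _, ?_⟩
    rw [integral_div, integral_sub_right_eq_self
      (fun u => u * g0 ((n + 2) * π) u * ∏ j, f0 (x j - u)), h2, zero_div]
  · rintro ⟨a, σ, hσ, h⟩
    have h' : (fun x => f0 (x + c) / Z) =
        fun x => (√(2 * π * σ ^ 2))⁻¹ * exp (-(x - a) ^ 2 / (2 * σ ^ 2)) :=
      (Continuous.ae_eq_iff_eq volume (by fun_prop) (by fun_prop)).1 h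
    set k := (√(2 * π * σ ^ 2))⁻¹
    have q : ∀ y, f0 y = Z * k * exp (-(y - c - a) ^ 2 / (2 * σ ^ 2)) := by
      intro y
      have := congrFun h' (y - c)
      simp only [sub_add_cancel] at this
      rw [mul_assoc, ← this]; field_simp
    have e1 : f0 (3 * π) * f0 π ^ 3 = f0 (2 * π) ^ 3 * f0 0 := by
      simp only [q, mul_pow, ← exp_nat_mul]
      have : ∀ A B C D : ℝ, A + B = C + D →
          Z * k * exp A * (Z ^ 3 * k ^ 3 * exp B) = Z ^ 3 * k ^ 3 * exp C * (Z * k * exp D) := by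
        intro A B C D h
        calc _ = Z ^ 4 * k ^ 4 * exp (A + B) := by rw [exp_add]; ring
          _ = _ := by rw [h, exp_add]; ring
      apply this; push_cast; ring
    have c3 : cos (3 * π) = -1 := by
      rw [show 3 * π = π + 2 * π by ring, cos_add_two_pi, cos_pi]
    simp only [f0, c3, cos_pi, cos_two_pi, cos_zero, mul_pow, ← exp_nat_mul] at e1
    have e2 : exp (-(1 / 2) * (3 ^ 2 * π ^ 2)) * exp ((3 : ℕ) * (-(1 / 2) * π ^ 2)) =
        exp ((3 : ℕ) * (-(1 / 2) * (2 ^ 2 * π ^ 2))) * exp (-(1 / 2) * 0 ^ 2) := by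
      rw [← exp_add, ← exp_add]; congr 1; push_cast; ring
    have p1 := exp_pos ((3 : ℕ) * (-(1 / 2) * (2 ^ 2 * π ^ 2)))
    have p2 := exp_pos (-(1 / 2) * (0 : ℝ) ^ 2)
    nlinarith [mul_pos p1 p2]

end Pool.Agent.Results.MP_d643ae_pr.NotNormal
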